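import Pool.Agent.NDR.StmtsC

set_option autoImplicit false

namespace Pool.Agent.NDR.H16

open Finset Pool.Agent.Helper6_Mono Pool.Agent.Helper30_Simp

theorem mem_sup {σ : Type} [Fintype σ] {κ : σ → ℕ} {i : σ} : i ∈ sup κ ↔ κ i ≠ 0 := by
  unfold sup
  simp

theorem supp_fpr {σ K : Type} [Field K] [Algebra ℂ K] (F : MvPolynomial σ ℂ) (I : Finset σ)
    (c : σ → K) (L : ℕ) (hc : ∀ i, c i ≠ 0) (hL : 0 < L) (hd : ∀ α ∈ F.support, ∑ i ∈ I, α i < L) :
    (fpr F I c L).support = Mp F.support I L := by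
  classical
  have hne : ∀ i ∈ I, Finsupp.single i L ∉ F.support := by
    intro i hi h
    have h1 := hd _ h
    rw [Finset.sum_eq_single i, Finsupp.single_eq_same] at h1
    · exact lt_irrefl _ h1
    · intro j _ hji
      exact Finsupp.single_eq_of_ne hji
    · exact fun h => absurd hi h
  have hco : ∀ α, MvPolynomial.coeff α (fpr F I c L) =
      algebraMap ℂ K (MvPolynomial.coeff α F) + ∑ i ∈ I, if Finsupp.single i L = α then c i else 0 := by
    intro α
    unfold fpr
    rw [MvPolynomial.coeff_add, MvPolynomial.coeff_map, MvPolynomial.coeff_sum]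
    congr 1
    apply Finset.sum_congr rfl
    intro i _
    rw [MvPolynomial.coeff_C_mul, MvPolynomial.coeff_X_pow, mul_ite, mul_one, mul_zero]
  ext α
  rw [MvPolynomial.mem_support_iff, hco]
  unfold Mp
  rw [Finset.mem_union, Finset.mem_image]
  by_cases hα : α ∈ F.support
  · have h1 : ∑ i ∈ I, (if Finsupp.single i L = α then c i else 0) = 0 := by
      apply Finset.sum_eq_zero
      intro i hi
      rw [if_neg]
      intro h
      exact hne i hi (h ▸ hα)
    rw [h1, add_zero]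
    constructor
    · intro _
      exact Or.inl hα
    · intro _ h
      rw [map_eq_zero] at h
      exact MvPolynomial.mem_support_iff.1 hα h
  · have h0 : MvPolynomial.coeff α F = 0 := MvPolynomial.notMem_support_iff.1 hα
    rw [h0, map_zero, zero_add]
    by_cases hα2 : ∃ j ∈ I, Finsupp.single j L = α
    · obtain ⟨j, hj, rfl⟩ := hα2
      rw [Finset.sum_eq_single j, if_pos rfl]
      · constructor
        · intro _
          exact Or.inr ⟨j, hj, rfl⟩
        · intro _
          exact hc j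
      · intro i _ hij
        rw [if_neg]
        intro h
        exact hij (Finsupp.single_left_injective hL.ne' h)
      · exact fun h => absurd hj h
    · constructor
      · intro h
        exfalso
        apply h
        apply Finset.sum_eq_zero
        intro i hi
        rw [if_neg]
        exact fun h => hα2 ⟨i, hi, h⟩
      · rintro (h | h)
        · exact absurd h hα
        · exact absurd h hα2

theorem ex_b {σ : Type} (F : MvPolynomial σ ℂ) (z : ℂ) (h : (bfun F).eval z ≠ 0) :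
    ∃ b : Polynomial ℂ, LocalBS F b ∧ b.eval z ≠ 0 := by
  by_contra hcon
  push Not at hcon
  apply h
  unfold bfun
  have h1 : Ideal.span {b | LocalBS F b} ≤ RingHom.ker (Polynomial.evalRingHom z) := by
    apply Ideal.span_le.2
    intro b hb
    exact hcon b hb
  have h2 := Submodule.IsPrincipal.generator_mem (Ideal.span {b | LocalBS F b})
  have h3 : Polynomial.eval z (Submodule.IsPrincipal.generator (Ideal.span {b | LocalBS F b})) = 0 :=
    h1 h2
  rw [normalize_apply, Polynomial.eval_mul, h3, zero_mul]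

theorem Cn_congr {σ : Type} {M : Finset (σ →₀ ℕ)} {I : Finset σ} {q q' : σ → ℝ} {r r' : ℝ}
    (h : Cn M I q r) (hq : ∀ i ∈ I, q i = q' i) (hr : r = r') : Cn M I q' r' := by
  obtain ⟨l, h1, h2, h3⟩ := h
  exact ⟨l, h1, fun i hi => by rw [← hq i hi]; exact h2 i hi, by rw [← hr]; exact h3⟩

/-- **CHO** -/
theorem cho (hcnx : CnxStmt) (hcrg : CrgStmt) (hcph : CphStmt) (hcdl : CdlStmt)
    (hcnv : CnvStmt) : ChoStmt := by
  intro σ _ F κ N P p hF hDat hb
  classical
  obtain ⟨b, hbs, hbe⟩ := ex_b F _ hb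
  obtain ⟨D, hD⟩ := hcrg σ F b hbs
  obtain ⟨K, iF, iA, iC, c, hK⟩ := hcnx σ
  obtain ⟨δ₁, hδ₁, hph⟩ := hcph σ F.support κ N P p D hDat
  obtain ⟨δ₂, hδ₂, hdl⟩ := hcdl σ F.support κ N p hDat.pos hDat.ge
  obtain ⟨B, hB⟩ : ∃ B : ℕ, ∀ α ∈ F.support, ∑ i ∈ sup κ, α i ≤ B :=
    ⟨∑ α ∈ F.support, ∑ i ∈ sup κ, α i, fun α hα =>
      Finset.single_le_sum (f := fun α : σ →₀ ℕ => ∑ i ∈ sup κ, α i) (fun _ _ => Nat.zero_le _) hα⟩
  have hc : ∀ i, c i ≠ 0 := (hK F (sup κ) (B + 1) (fun α hα => Nat.lt_succ_of_le (hB α hα)) hF).1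
  refine ⟨b, K, iF, iA, iC, c, min δ₁ δ₂, hbe, hc, lt_min hδ₁ hδ₂, ?_⟩
  intro δ hδ0 hδ
  obtain ⟨L₀, hL₀⟩ := hph δ hδ0 (hδ.trans (min_le_left _ _))
  obtain ⟨L, hL⟩ : ∃ L : ℕ, L = D + 1 + L₀ + 2 * N + B + 1 := ⟨_, rfl⟩
  have hLd : ∀ α ∈ F.support, ∑ i ∈ sup κ, α i < L := fun α hα => by
    have := hB α hα
    omega
  have hNpos := hDat.pos
  have hLκ : ∀ i ∈ sup κ, N < L * κ i := by
    intro i hi
    have h1 : 1 ≤ κ i := Nat.one_le_iff_ne_zero.2 (mem_sup.1 hi)
    have h2 : L * 1 ≤ L * κ i := Nat.mul_le_mul_left L h1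
    omega
  have hsupp := supp_fpr F (sup κ) c L hc (by omega) hLd
  have hph' := hL₀ L (by omega)
  -- translation of the cone
  have hin : ∀ m : Option σ → ℤ, InC (ih (sup κ)) (hatS (fpr F (sup κ) c L)) (pt (phat κ N p δ) m) ↔
      Cn (Mp F.support (sup κ) L) (sup κ) (fun i => pt (phat κ N p δ) m (some i))
        (pt (phat κ N p δ) m none) := by
    intro m
    rw [hcnv σ K (fpr F (sup κ) c L) (sup κ) (pt (phat κ N p δ) m), hsupp]
  have hone : ∀ i ∈ sup κ, one1 (sup κ) (some i) = 1 := by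
    intro i hi
    unfold one1
    exact if_pos hi
  have hone0 : one1 (sup κ) (none : Option σ) = 0 := rfl
  refine ⟨L, hLd, hLκ, (hK F (sup κ) L hLd hF).2, ?_, ?_⟩
  · intro R _ _ _ _ s
    obtain ⟨X, h, hX, hh, hg⟩ := hD (sup κ) K c L (by omega) R s
    refine ⟨X, h, hX, hh, ?_, ?_⟩
    · intro m hm
      have hgm := hg m hm
      refine ⟨?_, ?_, ?_⟩
      · intro i hi
        have h1 := hgm.nn (some i)
        rw [Pi.sub_apply, hone i hi] at h1
        linarith
      · have h1 := hgm.kap κ N hDat.pos (fun i => mem_sup.symm) hDat.ge hLκ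
        rw [Pi.sub_apply, hone0, sub_zero] at h1
        refine h1.trans_eq (Finset.sum_congr rfl fun i hi => ?_)
        rw [Pi.sub_apply, hone i hi]
      · rw [hin]
        refine Cn_congr (hph' (m - one1 (sup κ)) (Or.inr hgm)) ?_ ?_
        · intro i hi
          rw [Pi.sub_apply, hone i hi]
          show p i + ((m (some i) - 1 : ℤ) : ℝ) = ((m (some i) : ℤ) : ℝ) - 1 + p i
          push_cast
          ring
        · rw [Pi.sub_apply, hone0, sub_zero]
          show _ = ((m none : ℤ) : ℝ) - 1 + ((∑ i, (κ i : ℝ) * p i) / N - δ + 1)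
          ring
    · rw [hin]
      refine Cn_congr (hph' 0 (Or.inl rfl)) ?_ ?_
      · intro i hi
        show p i + (((0 : Option σ → ℤ) (some i) : ℤ) : ℝ) =
          ((one1 (sup κ) (some i) : ℤ) : ℝ) - 1 + p i
        rw [hone i hi, Pi.zero_apply]
        push_cast
        ring
      · show (∑ i, (κ i : ℝ) * p i) / N - δ + (((0 : Option σ → ℤ) none : ℤ) : ℝ) =
          ((one1 (sup κ) (none : Option σ) : ℤ) : ℝ) - 1 + ((∑ i, (κ i : ℝ) * p i) / N - δ + 1)
        rw [hone0, Pi.zero_apply]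
        push_cast
        ring
  · intro m hm hC
    rw [hin] at hC
    have hsum : ∑ i, (κ i : ℝ) * ((m (some i) - 1 : ℤ) : ℝ) = N * ((m none : ℤ) : ℝ) := by
      have h1 : ∑ i, (κ i : ℝ) * ((m (some i) - 1 : ℤ) : ℝ) =
          ∑ i ∈ sup κ, (κ i : ℝ) * ((m (some i) - 1 : ℤ) : ℝ) := by
        symm
        apply Finset.sum_subset (Finset.subset_univ _)
        intro i _ hi
        have h2 : κ i = 0 := by
          by_contra h
          exact hi (mem_sup.2 h)
        rw [h2, Nat.cast_zero, zero_mul]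
      rw [h1]
      have h2 : (((N : ℤ) * m none : ℤ) : ℝ) =
          ((∑ i ∈ sup κ, (κ i : ℤ) * (m (some i) - 1) : ℤ) : ℝ) := by rw [hm]
      push_cast at h2
      rw [h2]
      apply Finset.sum_congr rfl
      intro i _
      push_cast
      ring
    have hN0 : (N : ℝ) ≠ 0 := by exact_mod_cast hNpos.ne'
    have h1 := hdl δ L hδ0 (hδ.trans (min_le_right _ _)) (by omega) (fun i => m (some i) - 1)
      (Cn_congr hC (by
        intro i _
        show ((m (some i) : ℤ) : ℝ) - 1 + p i = p i + ((m (some i) - 1 : ℤ) : ℝ)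
        push_cast
        ring) (by
        show ((m none : ℤ) : ℝ) - 1 + ((∑ i, (κ i : ℝ) * p i) / N - δ + 1) =
          (∑ i, (κ i : ℝ) * (p i + ((m (some i) - 1 : ℤ) : ℝ))) / N - δ
        have h2 : ∑ i, (κ i : ℝ) * (p i + ((m (some i) - 1 : ℤ) : ℝ)) =
            ∑ i, (κ i : ℝ) * p i + N * ((m none : ℤ) : ℝ) := by
          rw [← hsum, ← Finset.sum_add_distrib]
          exact Finset.sum_congr rfl fun i _ => by ring
        rw [h2, add_div, mul_div_cancel_left₀ _ hN0]
        ring))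
    obtain ⟨l, hl1, hl2⟩ := h1
    refine ⟨l, hl1, ?_⟩
    intro i hi
    rw [← hl2 i hi]
    show ((m (some i) : ℤ) : ℝ) - 1 + p i = p i + ((m (some i) - 1 : ℤ) : ℝ)
    push_cast
    ring

end Pool.Agent.NDR.H16
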