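import Pool.Agent.NDR.StmtsG

set_option autoImplicit false

namespace Pool.Agent.NDR.H16

open Finset

section

variable {ι K : Type} [Field K]

theorem mem_MS {Q : Set (ι → ℤ)} {h : Lr K ι} : h ∈ MS K Q ↔ ∀ m, h.coeff m ≠ 0 → m ∈ Q := Iff.rfl

theorem tht_coeff (v : ι) (h : Lr K ι) (m : ι → ℤ) :
    (tht v h).coeff m = ((m v : ℤ) : K) * h.coeff m := by
  classical
  unfold tht
  rw [AddMonoidAlgebra.coeff_ofCoeff, Finsupp.sum_apply, Finsupp.sum]
  by_cases hm : m ∈ h.coeff.support
  · rw [Finset.sum_eq_single m]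
    · rw [Finsupp.single_eq_same]
    · intro b _ hb
      rw [Finsupp.single_eq_of_ne (Ne.symm hb)]
    · exact fun h => absurd hm h
  · rw [Finsupp.notMem_support_iff.1 hm, mul_zero]
    apply Finset.sum_eq_zero
    intro b hb
    rw [Finsupp.single_eq_of_ne]
    rintro rfl
    exact hm hb

theorem cst_mul_coeff (c : K) (h : Lr K ι) (m : ι → ℤ) :
    (cst ι c * h).coeff m = c * h.coeff m := by
  unfold cst
  exact AddMonoidAlgebra.coeff_single_zero_mul h c m

theorem cst_mul_mem {Q : Set (ι → ℤ)} {h : Lr K ι} (c : K) (hh : h ∈ MS K Q) :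
    cst ι c * h ∈ MS K Q := by
  intro m hm
  rw [cst_mul_coeff] at hm
  exact hh m (right_ne_zero_of_mul hm)

theorem rr_empty {ι : Type} [Fintype ι] (rrz : RrzStmt) (rrs : RrsStmt) (I : Finset ι)
    (A : Finset (ι → ℤ)) (κ : ι → ℤ) (N : ℤ) (hh : Hgt I A κ N) : RR ι I A ∅ := by
  classical
  have key : ∀ (n : ℕ) (D : Finset ι), Disjoint I D → ((Finset.univ \ I) \ D).card = n →
      RR ι I A D := by
    intro n
    induction n with
    | zero =>
      intro D hD hc
      refine rrz ι I A D κ N hh hD ?_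
      intro i
      rw [Finset.card_eq_zero, Finset.sdiff_eq_empty_iff_subset] at hc
      by_cases hi : i ∈ I
      · exact Or.inl hi
      · exact Or.inr (hc (Finset.mem_sdiff.2 ⟨Finset.mem_univ i, hi⟩))
    | succ n ih =>
      intro D hD hc
      obtain ⟨r, hr⟩ : ((Finset.univ \ I) \ D).Nonempty := by
        rw [← Finset.card_pos, hc]
        exact Nat.succ_pos n
      obtain ⟨hr1, hrD⟩ := Finset.mem_sdiff.1 hr
      have hrI : r ∉ I := (Finset.mem_sdiff.1 hr1).2
      refine rrs ι I A D κ N r hh hD hrI hrD (ih (insert r D) ?_ ?_)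
      · rw [Finset.disjoint_insert_right]
        exact ⟨hrI, hD⟩
      · have h1 : (Finset.univ \ I) \ insert r D = ((Finset.univ \ I) \ D).erase r := by
          ext i
          simp only [Finset.mem_sdiff, Finset.mem_insert, Finset.mem_erase, Finset.mem_univ,
            true_and]
          tauto
        rw [h1, Finset.card_erase_of_mem hr, hc]
        rfl
  exact key _ ∅ (Finset.disjoint_empty_right I) rfl

end

/-- **GLA** -/
theorem gla (rrz : RrzStmt) (rrs : RrsStmt) (bse : BseStmt) (kho : KhoStmt) : GlaStmt := by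
  intro ι _ K _ _ _ I f κ N v hh hun x hx hsum
  classical
  obtain ⟨A, hA⟩ : ∃ A, A = f.coeff.support := ⟨_, rfl⟩
  rw [← hA] at hh hun hx ⊢
  obtain ⟨T, hTI, hT2, hT3⟩ := bse ι I A
  have hexp : ExP (opg f fun _ => 0) (ix T 0) (MS K (RG I ∅ A v)) ⊥ 1 := by
    refine rr_empty rrz rrs I A κ N hh K f 0 (fun _ => 0) ?_ ?_ ?_ v T ⟨hTI, hT2, hT3⟩ 1
      (by norm_num)
    · intro m hm
      refine ⟨⟨m, ?_, fun _ _ => rfl⟩, ?_⟩
      · rw [hA, Finsupp.mem_support_iff]
        exact hm
      · intro j hj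
        exact absurd hj (Finset.notMem_empty j)
    · intro _
      exact (MS K _).zero_mem
    · intro F hF hne
      exact ⟨Finset.univ, Finset.disjoint_empty_right _, hun F hF hne⟩
  -- the coefficients
  have hcex : ∀ i, ∃ c : ι → ℚ, i ∈ I → ∀ a ∈ A, (a i : ℚ) = ∑ j ∈ T, c j * (a j : ℚ) := by
    intro i
    by_cases hi : i ∈ I
    · obtain ⟨c, hc⟩ := hT2 i hi
      exact ⟨c, fun _ => hc⟩
    · exact ⟨0, fun h => absurd h hi⟩
  choose c hc using hcex
  have hfo : ∀ m, m ∉ A → f.coeff m = 0 := by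
    intro m hm
    rw [hA] at hm
    exact Finsupp.notMem_support_iff.1 hm
  have htht : ∀ i ∈ I, tht i f = ∑ j ∈ T, cst ι ((c i j : ℚ) : K) * tht j f := by
    intro i hi
    apply AddMonoidAlgebra.coeff_injective
    ext m
    rw [AddMonoidAlgebra.coeff_sum, Finsupp.finsetSum_apply, tht_coeff]
    simp only [cst_mul_coeff, tht_coeff]
    by_cases hm : m ∈ A
    · have h1 := hc i hi m hm
      have h2 : ((m i : ℤ) : K) = ∑ j ∈ T, ((c i j : ℚ) : K) * ((m j : ℤ) : K) := by
        have h3 : (((m i : ℤ) : ℚ) : K) = ((∑ j ∈ T, c i j * ((m j : ℤ) : ℚ) : ℚ) : K) := by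
          rw [h1]
        push_cast at h3
        exact h3
      rw [h2, Finset.sum_mul]
      apply Finset.sum_congr rfl
      intro j _
      ring
    · rw [hfo m hm, mul_zero]
      symm
      apply Finset.sum_eq_zero
      intro j _
      rw [mul_zero, mul_zero]
  -- the family X
  obtain ⟨X, hX⟩ : ∃ X : ι → Lr K ι, ∀ j, X j = x j + ∑ i ∈ I \ T, cst ι ((c i j : ℚ) : K) * x i :=
    ⟨_, fun _ => rfl⟩
  have hXm : ∀ j ∈ T, X j ∈ MS K (RG I ∅ A v) := by
    intro j hj
    rw [hX]
    refine AddSubgroup.add_mem _ (hx j (hTI hj)) (AddSubgroup.sum_mem _ ?_)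
    intro i hi
    exact cst_mul_mem _ (hx i (Finset.mem_sdiff.1 hi).1)
  have hX0 : ∑ j ∈ T, tht j f * X j = 0 := by
    have h1 : ∑ j ∈ T, tht j f * X j = ∑ j ∈ T, tht j f * x j + ∑ i ∈ I \ T, tht i f * x i := by
      simp only [hX, mul_add, Finset.sum_add_distrib]
      congr 1
      simp only [Finset.mul_sum]
      rw [Finset.sum_comm]
      apply Finset.sum_congr rfl
      intro i hi
      rw [htht i (Finset.mem_sdiff.1 hi).1, Finset.sum_mul]
      apply Finset.sum_congr rfl
      intro j _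
      ring
    rw [h1, add_comm, Finset.sum_sdiff hTI]
    exact hsum
  -- KHO
  obtain ⟨y', hy1, hy2, hy3⟩ := kho (ι ⊕ ℕ) (Lr K ι) (opg f fun _ => 0) (ix T 0)
    (MS K (RG I ∅ A v)) hexp (Sum.elim X fun _ => 0)
    (by
      rintro (j | k) hj
      · exact hXm j (by simpa [ix] using hj)
      · exact (MS K _).zero_mem)
    (by
      unfold ix opg
      rw [Finset.sum_disjSum]
      simp only [Sum.elim_inl, Finset.range_zero, Finset.sum_empty, add_zero]
      exact hX0)
  have hy4 : ∀ j ∈ T, X j = ∑ k ∈ T, tht k f * y' (Sum.inl j) (Sum.inl k) := by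
    intro j hj
    have h1 := hy3 (Sum.inl j) (by simpa [ix] using hj)
    unfold ix opg at h1
    rw [Finset.sum_disjSum] at h1
    simp only [Sum.elim_inl, Finset.range_zero, Finset.sum_empty, add_zero] at h1
    exact h1
  refine ⟨fun j k => if j ∈ T ∧ k ∈ T then y' (Sum.inl j) (Sum.inl k) else 0, ι, inferInstance,
    fun i l => if i ∈ I \ T then (if l = i then 1 else 0) - (if l ∈ T then c i l else 0) else 0,
    fun i => if i ∈ I \ T then x i else 0, ?_, ?_, ?_, ?_, ?_, ?_⟩
  · intro k l
    show (if k ∈ T ∧ l ∈ T then y' (Sum.inl k) (Sum.inl l) else 0) =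
      - (if l ∈ T ∧ k ∈ T then y' (Sum.inl l) (Sum.inl k) else 0)
    by_cases h : k ∈ T ∧ l ∈ T
    · rw [if_pos h, if_pos h.symm]
      exact hy1 _ _
    · rw [if_neg h, if_neg (fun h' => h h'.symm), neg_zero]
  · intro k l
    show (if k ∈ T ∧ l ∈ T then y' (Sum.inl k) (Sum.inl l) else 0) ∈ _
    split_ifs
    · exact hy2 _ _
    · exact (MS K _).zero_mem
  · intro i
    show (if i ∈ I \ T then x i else 0) ∈ _
    split_ifs with h
    · exact hx i (Finset.mem_sdiff.1 h).1
    · exact (MS K _).zero_mem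
  · intro i l hl
    show (if i ∈ I \ T then ((if l = i then (1 : ℚ) else 0) - (if l ∈ T then c i l else 0)) else 0) = 0
    split_ifs with h1 h2 h3 h3
    · exact absurd (h2 ▸ (Finset.mem_sdiff.1 h1).1) hl
    · exact absurd (h2 ▸ (Finset.mem_sdiff.1 h1).1) hl
    · exact absurd (hTI h3) hl
    · ring
    · rfl
  · intro i a ha
    unfold pr
    by_cases h : i ∈ I \ T
    · simp only [if_pos h, sub_mul, Finset.sum_sub_distrib, ite_mul, one_mul, zero_mul,
        Finset.sum_ite_eq', Finset.mem_univ, if_true]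
      rw [Finset.sum_ite_mem, Finset.univ_inter, hc i (Finset.mem_sdiff.1 h).1 a ha, sub_self]
    · simp only [if_neg h, zero_mul, Finset.sum_const_zero]
  · intro k hk
    by_cases hkT : k ∈ T
    · have h1 : ∑ l ∈ I, tht l f * (if k ∈ T ∧ l ∈ T then y' (Sum.inl k) (Sum.inl l) else 0) =
          X k := by
        rw [hy4 k hkT, ← Finset.sum_subset hTI]
        · apply Finset.sum_congr rfl
          intro l hl
          rw [if_pos ⟨hkT, hl⟩]
        · intro l _ hl
          rw [if_neg (fun h => hl h.2), mul_zero]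
      have h2 : ∑ i : ι, cst ι (((if i ∈ I \ T then
          (if k = i then (1 : ℚ) else 0) - (if k ∈ T then c i k else 0) else 0 : ℚ)) : K) *
          (if i ∈ I \ T then x i else 0) = - ∑ i ∈ I \ T, cst ι ((c i k : ℚ) : K) * x i := by
        rw [← Finset.sum_neg_distrib, ← Finset.sum_subset (Finset.subset_univ (I \ T))]
        · apply Finset.sum_congr rfl
          intro i hi
          have hki : k ≠ i := by
            rintro rfl
            exact (Finset.mem_sdiff.1 hi).2 hkT
          rw [if_pos hi, if_pos hi, if_neg hki, if_pos hkT, zero_sub]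
          unfold cst
          push_cast
          rw [AddMonoidAlgebra.single_neg, neg_mul]
        · intro i _ hi
          rw [if_neg hi, if_neg hi, mul_zero]
      show x k = ∑ l ∈ I, tht l f * (if k ∈ T ∧ l ∈ T then y' (Sum.inl k) (Sum.inl l) else 0) +
        ∑ i : ι, cst ι (((if i ∈ I \ T then
          (if k = i then (1 : ℚ) else 0) - (if k ∈ T then c i k else 0) else 0 : ℚ)) : K) *
          (if i ∈ I \ T then x i else 0)
      rw [h1, h2, hX]
      ring
    · have h1 : ∑ l ∈ I, tht l f * (if k ∈ T ∧ l ∈ T then y' (Sum.inl k) (Sum.inl l) else 0) =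
          0 := by
        apply Finset.sum_eq_zero
        intro l _
        rw [if_neg (fun h => hkT h.1), mul_zero]
      have h2 : ∑ i : ι, cst ι (((if i ∈ I \ T then
          (if k = i then (1 : ℚ) else 0) - (if k ∈ T then c i k else 0) else 0 : ℚ)) : K) *
          (if i ∈ I \ T then x i else 0) = x k := by
        rw [Finset.sum_eq_single k]
        · have hkd : k ∈ I \ T := Finset.mem_sdiff.2 ⟨hk, hkT⟩
          rw [if_pos hkd, if_pos hkd, if_pos rfl, if_neg hkT, sub_zero]
          unfold cst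
          rw [Rat.cast_one, ← AddMonoidAlgebra.one_def, one_mul]
        · intro i _ hik
          by_cases hi : i ∈ I \ T
          · rw [if_pos hi, if_pos hi, if_neg (Ne.symm hik), if_neg hkT, sub_zero]
            unfold cst
            rw [Rat.cast_zero, AddMonoidAlgebra.single_zero, zero_mul]
          · rw [if_neg hi, if_neg hi, mul_zero]
        · exact fun h => absurd (Finset.mem_univ k) h
      show x k = ∑ l ∈ I, tht l f * (if k ∈ T ∧ l ∈ T then y' (Sum.inl k) (Sum.inl l) else 0) +
        ∑ i : ι, cst ι (((if i ∈ I \ T then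
          (if k = i then (1 : ℚ) else 0) - (if k ∈ T then c i k else 0) else 0 : ℚ)) : K) *
          (if i ∈ I \ T then x i else 0)
      rw [h1, h2, zero_add]

end Pool.Agent.NDR.H16
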